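import Mathlib

/-!
# A 5-blocked point set with a colour class of six points

We exhibit an explicit set of 17 points of the plane with integer coordinates, together with a
colouring by five colours, such that two distinct points of the set receive the same colour if and
only if a point of the set lies strictly between them, and such that one colour is used on six
points. So a colour class of a `k`-blocked set may have more than `k` points.
-/

set_option autoImplicit false

namespace Pool.Agent.Results.MP_b92725_co.SixOfFive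

/-- `P` is `k`-blocked, as witnessed by the colouring `c`: two distinct points of `P` have the same
colour if and only if the open segment between them contains a point of `P`. -/
def IsBlocked (k : ℕ) (P : Finset (ℝ × ℝ)) (c : ℝ × ℝ → Fin k) : Prop :=
  ∀ v ∈ P, ∀ w ∈ P, v ≠ w → (c v = c w ↔ ∃ x ∈ P, x ∈ openSegment ℝ v w)

/-- The 17 points, with integer coordinates. -/
def pt : Fin 17 → ℤ × ℤ :=
  ![(48216, 331485), (164656, 203401), (168756, 198891), (158424, 186263), (138088, 170929),
    (33784, 100573), (7708, 82984), (2296, 78925), (7448, 81389), (6232, 78925), (16072, 78925),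
    (0, 66297), (7216, 68101), (328, 62689), (32144, 74333), (11890, 16687), (6027, 0)]

/-- The colours of the 17 points. -/
def colr : Fin 17 → Fin 5 :=
  ![0, 1, 0, 2, 3, 4, 3, 2, 0, 1, 2, 0, 4, 3, 0, 1, 0]

/-- Twice the signed area of the triangle `a b x`. -/
def crossZ (a b x : ℤ × ℤ) : ℤ := (b.1 - a.1) * (x.2 - a.2) - (b.2 - a.2) * (x.1 - a.1)

/-- The inner product of `x - a` and `b - x`. -/
def dotZ (a b x : ℤ × ℤ) : ℤ := (x.1 - a.1) * (b.1 - x.1) + (x.2 - a.2) * (b.2 - x.2)

/-- The integer point as a point of the real plane. -/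
def emb (a : ℤ × ℤ) : ℝ × ℝ := ((a.1 : ℝ), (a.2 : ℝ))

lemma emb_injective : Function.Injective emb := by
  intro a b h
  simp only [emb, Prod.mk.injEq, Int.cast_inj] at h
  exact Prod.ext h.1 h.2

lemma mem_openSegment_iff (a b x : ℤ × ℤ) (hab : a ≠ b) :
    emb x ∈ openSegment ℝ (emb a) (emb b) ↔ crossZ a b x = 0 ∧ 0 < dotZ a b x := by
  constructor
  · rintro ⟨s, t, hs, ht, hst, hx⟩
    have h1 : s * (a.1 : ℝ) + t * (b.1 : ℝ) = (x.1 : ℝ) := by
      have := congrArg Prod.fst hx
      simpa [emb] using this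
    have h2 : s * (a.2 : ℝ) + t * (b.2 : ℝ) = (x.2 : ℝ) := by
      have := congrArg Prod.snd hx
      simpa [emb] using this
    have hs' : s = 1 - t := by linarith
    subst hs'
    have e1 : (x.1 : ℝ) - a.1 = t * ((b.1 : ℝ) - a.1) := by rw [← h1]; ring
    have e2 : (x.2 : ℝ) - a.2 = t * ((b.2 : ℝ) - a.2) := by rw [← h2]; ring
    have e3 : (b.1 : ℝ) - x.1 = (1 - t) * ((b.1 : ℝ) - a.1) := by rw [← h1]; ring
    have e4 : (b.2 : ℝ) - x.2 = (1 - t) * ((b.2 : ℝ) - a.2) := by rw [← h2]; ring
    constructor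
    · have : ((crossZ a b x : ℤ) : ℝ) = 0 := by
        simp only [crossZ, Int.cast_sub, Int.cast_mul]
        rw [e1, e2]; ring
      exact_mod_cast this
    · have key : (0 : ℝ) < ((dotZ a b x : ℤ) : ℝ) := by
        simp only [dotZ, Int.cast_add, Int.cast_mul, Int.cast_sub]
        rw [e1, e2, e3, e4]
        have hne : ((b.1 : ℝ) - a.1) ^ 2 + ((b.2 : ℝ) - a.2) ^ 2 > 0 := by
          by_contra hcon
          have h0 : ((b.1 : ℝ) - a.1) ^ 2 + ((b.2 : ℝ) - a.2) ^ 2 = 0 :=
            le_antisymm (not_lt.mp hcon) (by positivity)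
          have g1 : (b.1 : ℝ) - a.1 = 0 := by nlinarith [sq_nonneg ((b.1 : ℝ) - a.1), sq_nonneg ((b.2 : ℝ) - a.2)]
          have g2 : (b.2 : ℝ) - a.2 = 0 := by nlinarith [sq_nonneg ((b.1 : ℝ) - a.1), sq_nonneg ((b.2 : ℝ) - a.2)]
          apply hab
          have g1' : (a.1 : ℝ) = b.1 := by linarith
          have g2' : (a.2 : ℝ) = b.2 := by linarith
          exact Prod.ext (by exact_mod_cast g1') (by exact_mod_cast g2')
        have hpos : 0 < t * (1 - t) := mul_pos ht hs
        have : t * ((b.1 : ℝ) - a.1) * ((1 - t) * ((b.1 : ℝ) - a.1)) +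
            t * ((b.2 : ℝ) - a.2) * ((1 - t) * ((b.2 : ℝ) - a.2)) =
            t * (1 - t) * (((b.1 : ℝ) - a.1) ^ 2 + ((b.2 : ℝ) - a.2) ^ 2) := by ring
        rw [this]
        exact mul_pos hpos hne
      exact_mod_cast key
  · rintro ⟨hc, hd⟩
    -- set up the real parameter
    set u1 : ℝ := (b.1 : ℝ) - a.1 with hu1
    set u2 : ℝ := (b.2 : ℝ) - a.2 with hu2
    set w1 : ℝ := (x.1 : ℝ) - a.1 with hw1
    set w2 : ℝ := (x.2 : ℝ) - a.2 with hw2
    have hc' : u1 * w2 - u2 * w1 = 0 := by
      have : ((crossZ a b x : ℤ) : ℝ) = 0 := by exact_mod_cast hc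
      simpa [crossZ, hu1, hu2, hw1, hw2] using this
    have hd' : 0 < w1 * (u1 - w1) + w2 * (u2 - w2) := by
      have : (0 : ℝ) < ((dotZ a b x : ℤ) : ℝ) := by exact_mod_cast hd
      have e : ((dotZ a b x : ℤ) : ℝ) = w1 * (u1 - w1) + w2 * (u2 - w2) := by
        simp only [dotZ, Int.cast_add, Int.cast_mul, Int.cast_sub, hu1, hu2, hw1, hw2]; ring
      rwa [e] at this
    have hN : 0 < u1 ^ 2 + u2 ^ 2 := by
      by_contra hcon
      have h0 : u1 ^ 2 + u2 ^ 2 = 0 := le_antisymm (not_lt.mp hcon) (by positivity)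
      have g1 : u1 = 0 := by nlinarith [sq_nonneg u1, sq_nonneg u2]
      have g2 : u2 = 0 := by nlinarith [sq_nonneg u1, sq_nonneg u2]
      rw [g1, g2] at hd'
      nlinarith [sq_nonneg w1, sq_nonneg w2]
    set N : ℝ := u1 ^ 2 + u2 ^ 2 with hNdef
    set t : ℝ := (w1 * u1 + w2 * u2) / N with ht
    have hw1' : w1 = t * u1 := by
      rw [ht]; field_simp
      rw [hNdef]; linear_combination (-u2) * hc'
    have hw2' : w2 = t * u2 := by
      rw [ht]; field_simp
      rw [hNdef]; linear_combination u1 * hc'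
    have hprod : 0 < t * (1 - t) * N := by
      have e : t * (1 - t) * N = w1 * (u1 - w1) + w2 * (u2 - w2) := by
        rw [hw1', hw2', hNdef]; ring
      rw [e]; exact hd'
    have hprod' : 0 < t * (1 - t) := by
      by_contra h
      have h' : t * (1 - t) ≤ 0 := not_lt.mp h
      have := mul_nonpos_of_nonpos_of_nonneg h' hN.le
      linarith
    have htpos : 0 < t := by
      by_contra h
      have h' : t ≤ 0 := not_lt.mp h
      nlinarith
    have ht1 : 0 < 1 - t := by
      by_contra h
      have h' : 1 - t ≤ 0 := not_lt.mp h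
      nlinarith
    refine ⟨1 - t, t, ht1, htpos, by ring, ?_⟩
    ext
    · simp only [emb, Prod.smul_mk, smul_eq_mul, Prod.mk_add_mk]
      have : (x.1 : ℝ) = a.1 + t * u1 := by rw [← hw1', hw1]; ring
      rw [this, hu1]; ring
    · simp only [emb, Prod.smul_mk, smul_eq_mul, Prod.mk_add_mk]
      have : (x.2 : ℝ) = a.2 + t * u2 := by rw [← hw2', hw2]; ring
      rw [this, hu2]; ring

/-- The finite check. -/
lemma check : ∀ i j : Fin 17, i ≠ j →
    (pt i ≠ pt j ∧ (colr i = colr j ↔ ∃ x : Fin 17, crossZ (pt i) (pt j) (pt x) = 0 ∧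
      0 < dotZ (pt i) (pt j) (pt x))) := by
  decide +kernel

lemma pt_injective : Function.Injective pt := by
  intro i j h
  by_contra hij
  exact (check i j hij).1 h

/-- The point set. -/
noncomputable def P : Finset (ℝ × ℝ) := Finset.univ.image (fun i : Fin 17 => emb (pt i))

lemma embpt_injective : Function.Injective (fun i : Fin 17 => emb (pt i)) :=
  emb_injective.comp pt_injective

open Classical in
/-- The colouring, extended by `0` off the point set. -/
noncomputable def col (v : ℝ × ℝ) : Fin 5 :=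
  if h : ∃ i : Fin 17, emb (pt i) = v then colr h.choose else 0

lemma col_emb (i : Fin 17) : col (emb (pt i)) = colr i := by
  have h : ∃ j : Fin 17, emb (pt j) = emb (pt i) := ⟨i, rfl⟩
  unfold col
  rw [dif_pos h]
  congr 1
  exact embpt_injective h.choose_spec

lemma mem_P {v : ℝ × ℝ} : v ∈ P ↔ ∃ i : Fin 17, emb (pt i) = v := by
  simp [P]

/-- **There is a 5-blocked set of 17 points in the plane, using all five colours, with a colour
class of exactly six points.** -/
theorem result :
    ∃ (P : Finset (ℝ × ℝ)) (c : ℝ × ℝ → Fin 5),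
      IsBlocked 5 P c ∧ (∀ i : Fin 5, ∃ v ∈ P, c v = i) ∧ P.card = 17 ∧
        ∃ i : Fin 5, (P.filter (fun v => c v = i)).card = 6 := by
  classical
  refine ⟨P, col, ?_, ?_, ?_, 0, ?_⟩
  · intro v hv w hw hvw
    obtain ⟨i, rfl⟩ := mem_P.mp hv
    obtain ⟨j, rfl⟩ := mem_P.mp hw
    have hij : i ≠ j := by
      rintro rfl; exact hvw rfl
    obtain ⟨hne, hiff⟩ := check i j hij
    rw [col_emb, col_emb, hiff]
    constructor
    · rintro ⟨x, hx⟩
      exact ⟨emb (pt x), mem_P.mpr ⟨x, rfl⟩, (mem_openSegment_iff _ _ _ hne).mpr hx⟩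
    · rintro ⟨y, hy, hseg⟩
      obtain ⟨x, rfl⟩ := mem_P.mp hy
      exact ⟨x, (mem_openSegment_iff _ _ _ hne).mp hseg⟩
  · have h : ∀ i : Fin 5, ∃ j : Fin 17, colr j = i := by decide
    intro i
    obtain ⟨j, hj⟩ := h i
    exact ⟨emb (pt j), mem_P.mpr ⟨j, rfl⟩, by rw [col_emb, hj]⟩
  · rw [P, Finset.card_image_of_injective _ embpt_injective]
    simp
  · have h : P.filter (fun v => col v = 0) =
        (Finset.univ.filter (fun i : Fin 17 => colr i = 0)).image (fun i => emb (pt i)) := by
      ext v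
      simp only [Finset.mem_filter, Finset.mem_image, Finset.mem_univ, true_and]
      constructor
      · rintro ⟨hv, hc⟩
        obtain ⟨i, rfl⟩ := mem_P.mp hv
        rw [col_emb] at hc
        exact ⟨i, hc, rfl⟩
      · rintro ⟨i, hi, rfl⟩
        exact ⟨mem_P.mpr ⟨i, rfl⟩, by rw [col_emb, hi]⟩
    rw [h, Finset.card_image_of_injective _ embpt_injective]
    decide

end Pool.Agent.Results.MP_b92725_co.SixOfFive
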